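import Mathlib

set_option autoImplicit false

noncomputable section

namespace Pool.Agent.P.MP_49c4d9_an.TC

open scoped InnerProductSpace InnerProduct

variable {H : Type*} [NormedAddCommGroup H] [InnerProductSpace ℂ H] [CompleteSpace H]

theorem orth_inv {A : H →L[ℂ] H} {M : Submodule ℂ H} (h : ∀ x ∈ M, (A†) x ∈ M) :
    ∀ y ∈ Mᗮ, A y ∈ Mᗮ := by
  intro y hy x hx
  rw [← ContinuousLinearMap.adjoint_inner_left]
  exact hy _ (h x hx)

theorem orth_inv' {A : H →L[ℂ] H} {M : Submodule ℂ H} (h : ∀ x ∈ M, A x ∈ M) :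
    ∀ y ∈ Mᗮ, (A†) y ∈ Mᗮ := by
  intro y hy x hx
  rw [ContinuousLinearMap.adjoint_inner_right]
  exact hy _ (h x hx)

/-- Reductive on `M₀`, compact self-commutator and invariant subspaces in every reducing
subspace give normality on `M₀`. -/
theorem normal_on_of_reductive {T : H →L[ℂ] H}
    (hC : IsCompactOperator ((T†) * T - T * (T†) : H →L[ℂ] H))
    (hS : ∀ M : Submodule ℂ H, IsClosed (M : Set H) → (∀ x ∈ M, T x ∈ M) →
      (∀ x ∈ M, (T†) x ∈ M) → 1 < Module.rank ℂ M →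
      ∃ L : Submodule ℂ H, IsClosed (L : Set H) ∧ L ≤ M ∧ (∀ x ∈ L, T x ∈ L) ∧ L ≠ ⊥ ∧ L ≠ M)
    {M₀ : Submodule ℂ H} (hM₀ : IsClosed (M₀ : Set H)) (hM₀T : ∀ x ∈ M₀, T x ∈ M₀)
    (hred : ∀ K : Submodule ℂ H, IsClosed (K : Set H) → K ≤ M₀ → (∀ x ∈ K, T x ∈ K) →
      ∀ x ∈ K, (T†) x ∈ K) : ∀ x ∈ M₀, (T†) (T x) = T ((T†) x) := by
  classical
  by_contra hno
  set C : H →L[ℂ] H := (T†) * T - T * (T†) with hCdef
  have hCx : ∀ x, C x = (T†) (T x) - T ((T†) x) := fun x => rfl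
  have hCinv : ∀ L : Submodule ℂ H, (∀ x ∈ L, T x ∈ L) → (∀ x ∈ L, (T†) x ∈ L) →
      ∀ x ∈ L, C x ∈ L := fun L h1 h2 x hx => L.sub_mem (h2 _ (h1 x hx)) (h1 _ (h2 x hx))
  have hsym : ∀ x y, ⟪C x, y⟫_ℂ = ⟪x, C y⟫_ℂ := fun x y => by
    rw [hCx, hCx, inner_sub_left, inner_sub_right, ContinuousLinearMap.adjoint_inner_left,
      ContinuousLinearMap.adjoint_inner_right T x,
      ← ContinuousLinearMap.adjoint_inner_right T ((T†) x) y,
      ← ContinuousLinearMap.adjoint_inner_left T ((T†) y) x]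
  have hC0 := hCinv M₀ hM₀T (hred M₀ hM₀ le_rfl hM₀T)
  obtain ⟨κ, hκ, x0, hx0, hx0', hx0''⟩ : ∃ κ : ℂ, κ ≠ 0 ∧ ∃ x ∈ M₀, x ≠ 0 ∧ C x = κ • x := by
    have := hM₀.completeSpace_coe
    by_contra hcon
    refine hno fun x hx => ?_
    have h0 : C.restrict hC0 = 0 :=
      (ContinuousLinearMap.eq_zero_of_forall_hasEigenvalue_eq_zero (T := C.restrict hC0)
        (hC.restrict hC0 hM₀) fun y z => hsym y z).1 fun μ hμ => by
          by_contra hμ0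
          obtain ⟨y, hy⟩ := hμ.exists_hasEigenvector
          exact hcon ⟨μ, hμ0, y, y.2, fun h => hy.2 (Subtype.ext h),
            congrArg Subtype.val hy.apply_eq_smul⟩
    exact sub_eq_zero.1 (congrArg (fun L : M₀ →L[ℂ] M₀ => (L ⟨x, hx⟩ : H)) h0)
  set Q : Submodule ℂ H := Module.End.eigenspace (C : H →ₗ[ℂ] H) κ with hQ
  have hQm : ∀ x, x ∈ Q ↔ C x = κ • x := fun x => Module.End.mem_eigenspace_iff
  have hQf : FiniteDimensional ℂ Q := ContinuousLinearMap.finite_dimensional_eigenspace hC κ hκ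
  have hex : ∃ n, ∃ M : Submodule ℂ H, IsClosed (M : Set H) ∧ M ≤ M₀ ∧ (∀ x ∈ M, T x ∈ M) ∧
      M ⊓ Q ≠ ⊥ ∧ Module.finrank ℂ (M ⊓ Q : Submodule ℂ H) = n :=
    ⟨_, M₀, hM₀, le_rfl, hM₀T, (Submodule.ne_bot_iff _).2 ⟨x0, ⟨hx0, (hQm _).2 hx0''⟩, hx0'⟩, rfl⟩
  obtain ⟨M, hMc, hMM, hMT, hM0, hMn⟩ := Nat.find_spec hex
  obtain ⟨x, ⟨hxM, hxQ⟩, hx⟩ := (Submodule.ne_bot_iff _).1 hM0
  set K : Submodule ℂ H := sInf {L | IsClosed (L : Set H) ∧ (∀ y ∈ L, T y ∈ L) ∧ x ∈ L} with hK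
  have hKc : IsClosed (K : Set H) := by
    rw [hK, Submodule.coe_sInf]
    exact isClosed_biInter fun L hL => hL.1
  have hKT : ∀ y ∈ K, T y ∈ K := fun y hy =>
    Submodule.mem_sInf.mpr fun L hL => hL.2.1 y (Submodule.mem_sInf.mp hy L hL)
  have hxK : x ∈ K := Submodule.mem_sInf.mpr fun L hL => hL.2.2
  have hKM : K ≤ M := sInf_le ⟨hMc, hMT, hxM⟩
  have hKT' := hred K hKc (hKM.trans hMM) hKT
  have hr : 1 < Module.rank ℂ K := by
    by_contra hle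
    obtain ⟨y, hy, hyK⟩ := (rank_submodule_le_one_iff K).mp (not_lt.mp hle)
    obtain ⟨μ, hμ⟩ := Submodule.mem_span_singleton.mp (hyK (hKT y hy))
    obtain ⟨ν, hν⟩ := Submodule.mem_span_singleton.mp (hyK (hKT' y hy))
    obtain ⟨c, rfl⟩ := Submodule.mem_span_singleton.mp (hyK hxK)
    have h1 := (hQm _).1 hxQ
    rw [map_smul, hCx, ← hμ, ← hν, map_smul, map_smul, ← hμ, ← hν, smul_comm μ ν, sub_self,
      smul_zero] at h1
    exact hx ((smul_eq_zero.1 h1.symm).resolve_left hκ)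
  obtain ⟨L, l1, l2, l3, l4, l5⟩ := hS K hKc hKT hKT' hr
  have l0 : L ≤ M₀ := l2.trans (hKM.trans hMM)
  have l6 := hred L l1 l0 l3
  have := l1.completeSpace_coe
  obtain ⟨y, hy, z, hz, rfl⟩ := L.exists_add_mem_mem_orthogonal x
  rcases eq_or_ne y 0 with rfl | hy0
  · have h1 : K ≤ Lᗮ := sInf_le ⟨L.isClosed_orthogonal, orth_inv l6, by rwa [zero_add]⟩
    apply l4
    rw [eq_bot_iff, ← L.inf_orthogonal_eq_bot]
    exact le_inf le_rfl (l2.trans h1)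
  · have h0 : C y - κ • y ∈ L ⊓ Lᗮ := by
      refine ⟨L.sub_mem (hCinv L l3 l6 y hy) (L.smul_mem κ hy), ?_⟩
      have e : C y - κ • y = κ • z - C z := by
        have := (hQm _).1 hxQ
        rw [map_add, smul_add] at this
        rw [sub_eq_sub_iff_add_eq_add, this, add_comm]
      rw [e]
      exact Lᗮ.sub_mem (Lᗮ.smul_mem κ hz) (hCinv _ (orth_inv l6) (orth_inv' l3) z hz)
    rw [Submodule.inf_orthogonal_eq_bot, Submodule.mem_bot, sub_eq_zero] at h0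
    have h1 : Module.finrank ℂ (M ⊓ Q : Submodule ℂ H) ≤
        Module.finrank ℂ (L ⊓ Q : Submodule ℂ H) := by
      rw [hMn]
      exact Nat.find_min' hex ⟨L, l1, l0, l3,
        (Submodule.ne_bot_iff _).2 ⟨y, ⟨hy, (hQm _).2 h0⟩, hy0⟩, rfl⟩
    have : FiniteDimensional ℂ (M ⊓ Q : Submodule ℂ H) :=
      Submodule.finiteDimensional_of_le inf_le_right
    have h2 : L ⊓ Q = M ⊓ Q :=
      Submodule.eq_of_le_of_finrank_le (inf_le_inf_right Q (l2.trans hKM)) h1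
    have h3 : y + z ∈ L ⊓ Q := h2 ▸ ⟨hxM, hxQ⟩
    exact l5 (le_antisymm l2 (sInf_le ⟨l1, l3, h3.1⟩))

end Pool.Agent.P.MP_49c4d9_an.TC
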