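import Pool.Agent.P.MP_f981b0_an.TC.Exists

set_option autoImplicit false

noncomputable section

namespace Pool.Agent.P.MP_49c4d9_an.TC

open scoped InnerProductSpace InnerProduct
open Pool.Agent.P.MP_f981b0_an.TC

/-- Square summable sequences. -/
abbrev L2 (ι : Type) : Type := lp (fun _ : ι => ℂ) 2

theorem secondCountable_L2 (ι : Type) [Countable ι] : SecondCountableTopology (L2 ι) := by
  have b : HilbertBasis ι ℂ (L2 ι) := default
  have h := (Set.countable_range b).isSeparable.span (R := ℂ) |>.closure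
  rw [← Submodule.topologicalClosure_coe, b.dense_span, Submodule.top_coe,
    TopologicalSpace.isSeparable_univ_iff] at h
  exact UniformSpace.secondCountable_of_separable _

variable {H : Type*} [NormedAddCommGroup H] [InnerProductSpace ℂ H] [CompleteSpace H]

theorem exists_iso (b : HilbertBasis ℕ ℂ (L2 ℕ)) {e : ℕ → H} (he : Orthonormal ℂ e) :
    ∃ I : L2 ℕ →L[ℂ] H, ∀ n, I (b n) = e n := by
  classical
  refine ⟨(he.orthogonalFamily.linearIsometry.comp
    b.repr.toLinearIsometry).toContinuousLinearMap, fun n => ?_⟩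
  simp [HilbertBasis.repr_self]

theorem exists_factor (b : HilbertBasis ℕ ℂ (L2 ℕ)) {N T : H →L[ℂ] H} {u v : ℕ → H}
    (huv : Summable fun n => ‖u n‖ * ‖v n‖)
    (hT : ∀ x, HasSum (fun n => ⟪v n, x⟫_ℂ • u n) (T x - N x)) :
    ∃ U V : L2 ℕ →L[ℂ] H, (Summable fun n => ‖U (b n)‖ ^ 2) ∧ (Summable fun n => ‖V (b n)‖ ^ 2) ∧
      T = N + U ∘L (V†) := by
  have key : ∀ x y : H, ‖((√(‖y‖ / ‖x‖) : ℝ) : ℂ) • x‖ ^ 2 = ‖x‖ * ‖y‖ := fun x y => by
    rw [norm_smul, mul_pow, Complex.norm_real, Real.norm_of_nonneg (Real.sqrt_nonneg _),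
      Real.sq_sqrt (by positivity)]
    rcases eq_or_ne ‖x‖ 0 with h | h
    · simp [h]
    · field_simp
  have hu : Summable fun n => ‖((√(‖v n‖ / ‖u n‖) : ℝ) : ℂ) • u n‖ ^ 2 := by simpa only [key]
  have hv : Summable fun n => ‖((√(‖u n‖ / ‖v n‖) : ℝ) : ℂ) • v n‖ ^ 2 := by
    simpa only [key, mul_comm]
  refine ⟨Ex.op b ⟨_, Ex.memlp_of_summable hu⟩, Ex.op b ⟨_, Ex.memlp_of_summable hv⟩,
    by simpa only [Ex.op_basis], by simpa only [Ex.op_basis], ?_⟩
  ext x
  rw [add_apply, ← sub_eq_iff_eq_add', ContinuousLinearMap.comp_apply]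
  refine (hT x).unique ?_
  convert Ex.hasSum_op b ⟨_, Ex.memlp_of_summable hu⟩
    (((Ex.op b ⟨_, Ex.memlp_of_summable hv⟩)†) x) using 2 with n
  rw [ContinuousLinearMap.adjoint_inner_right, Ex.op_basis]
  change _ = ⟪((√(‖u n‖ / ‖v n‖) : ℝ) : ℂ) • v n, x⟫_ℂ • ((√(‖v n‖ / ‖u n‖) : ℝ) : ℂ) • u n
  rcases eq_or_ne (u n) 0 with h | h
  · simp [h]
  rcases eq_or_ne (v n) 0 with h' | h'
  · simp [h']
  have h1 : √(‖u n‖ / ‖v n‖) * √(‖v n‖ / ‖u n‖) = 1 := by
    have := norm_ne_zero_iff.2 h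
    have := norm_ne_zero_iff.2 h'
    rw [← Real.sqrt_mul (by positivity), div_mul_div_cancel₀ ‹_›, div_self ‹_›, Real.sqrt_one]
  rw [inner_smul_left, Complex.conj_ofReal, smul_smul, mul_right_comm, ← Complex.ofReal_mul, h1,
    Complex.ofReal_one, one_mul]

theorem compact_commutator {N T : H →L[ℂ] H} {u v : ℕ → H} (hN : IsStarNormal N)
    (huv : Summable fun n => ‖u n‖ * ‖v n‖)
    (hT : ∀ x, HasSum (fun n => ⟪v n, x⟫_ℂ • u n) (T x - N x)) :
    IsCompactOperator ((T†) * T - T * (T†) : H →L[ℂ] H) := by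
  obtain ⟨U, V, hU, hV, h⟩ := exists_factor default huv hT
  have c1 : IsCompactOperator (U ∘L (V†)) := (Ex.compact_of_summable _ U hU).comp_clm (V†)
  have c2 : IsCompactOperator ((U ∘L (V†))†) := by
    rw [ContinuousLinearMap.adjoint_comp, ContinuousLinearMap.adjoint_adjoint]
    exact (Ex.compact_of_summable _ V hV).comp_clm (U†)
  generalize U ∘L (V†) = A at h c1 c2
  have h1 : (N†) * N = N * (N†) := hN.star_comm_self.eq
  have h2 : (T†) * T - T * (T†) = ((T†) * A + (A†) * N) - (T * (A†) + A * (N†)) := by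
    rw [h, map_add]
    linear_combination (norm := noncomm_ring) h1
  rw [h2]
  exact ((c1.clm_comp (T†)).add (c2.comp_clm N)).sub ((c2.clm_comp T).add (c1.comp_clm (N†)))

theorem exists_sys {N T P : H →L[ℂ] H} {u v : ℕ → H} (hN : IsStarNormal N)
    (huv : Summable fun n => ‖u n‖ * ‖v n‖)
    (hT : ∀ x, HasSum (fun n => ⟪v n, x⟫_ℂ • u n) (T x - N x))
    (hP : IsStarProjection P) (hPT : P * T = T * P) :
    ∃ (m : Model (spectrum ℂ N) H (L2 (ℕ × Fin 4)) (lp (fun _ : ℕ × Fin 4 => L2 (ℕ × Fin 4)) 2))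
      (s : Sys m), s.T = T ∧ s.P = P := by
  classical
  have b0 : HilbertBasis ℕ ℂ (L2 ℕ) := default
  have b : HilbertBasis (ℕ × Fin 4) ℂ (L2 (ℕ × Fin 4)) := default
  obtain ⟨U, V, hU, hV, h⟩ := exists_factor b0 huv hT
  choose I hI using fun j : Fin 4 => exists_iso b0
    (b.orthonormal.comp (fun n => (n, j)) fun _ _ h => (Prod.mk.inj h).1)
  have hII : ∀ j k, ((I j)†) ∘L I k = if j = k then 1 else 0 := fun j k => by
    refine Ex.ext_basis b0 fun n => Ex.eq_of_inner_basis b0 fun m => ?_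
    rw [ContinuousLinearMap.comp_apply, ContinuousLinearMap.adjoint_inner_right, hI, hI,
      Function.comp_apply, Function.comp_apply, orthonormal_iff_ite.1 b.orthonormal]
    split_ifs with h1 h2 h2
    · simp [(Prod.mk.inj h1).1, b0.orthonormal.1 n]
    · exact absurd (Prod.mk.inj h1).2 h2
    · subst h2
      have : m ≠ n := fun h => h1 (by rw [h])
      simp [orthonormal_iff_ite.1 b0.orthonormal, this]
    · simp
  let W : Fin 4 → L2 ℕ →L[ℂ] H := ![P ∘L U, (1 - P) ∘L U, P ∘L V, (1 - P) ∘L V]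
  let Z : L2 (ℕ × Fin 4) →L[ℂ] H := ∑ j, W j ∘L ((I j)†)
  have hZ : ∀ k, Z ∘L I k = W k := fun k => by
    simp only [Z, ContinuousLinearMap.finsetSum_comp, ContinuousLinearMap.comp_assoc, hII]
    rw [Finset.sum_eq_single k (fun j _ hj => by simp [hj]) (by simp)]
    simp [ContinuousLinearMap.one_def]
  have hsum : Summable fun p => ‖Z (b p)‖ ^ 2 := by
    have h1 : ∀ (A : H →L[ℂ] H) (Y : L2 ℕ →L[ℂ] H), (Summable fun n => ‖Y (b0 n)‖ ^ 2) →
        Summable fun n => ‖(A ∘L Y) (b0 n)‖ ^ 2 := fun A Y hY =>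
      Summable.of_nonneg_of_le (fun _ => sq_nonneg _) (fun n => by
        rw [← mul_pow]
        exact pow_le_pow_left₀ (norm_nonneg _) (A.le_opNorm _) 2) (hY.mul_left (‖A‖ ^ 2))
    have h2 : ∀ k, Summable fun n => ‖W k (b0 n)‖ ^ 2 := fun k => by
      fin_cases k
      exacts [h1 _ _ hU, h1 _ _ hU, h1 _ _ hV, h1 _ _ hV]
    have h3 : ∀ n k, Z (b (n, k)) = W k (b0 n) := fun n k => by
      rw [← hZ, ContinuousLinearMap.comp_apply, hI, Function.comp_apply]
    rw [summable_prod_of_nonneg fun _ => sq_nonneg _]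
    refine ⟨fun _ => Summable.of_finite, ?_⟩
    simp only [h3, tsum_fintype]
    exact summable_sum fun k _ => h2 k
  obtain ⟨m, m1, m2⟩ := exists_model (X := spectrum ℂ N) (cfcHom (R := ℂ) hN) Z b hsum
  have e1 : Z ∘L (I 0 + I 1) = U := by
    rw [ContinuousLinearMap.comp_add, hZ, hZ]
    ext x
    simp [W]
  have e2 : Z ∘L (I 2 + I 3) = V := by
    rw [ContinuousLinearMap.comp_add, hZ, hZ]
    ext x
    simp [W]
  have e3 : m.T ((ContinuousMap.id ℂ).restrict (spectrum ℂ N)) ((I 0 + I 1) ∘L ((I 2 + I 3)†)) =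
      T := by
    rw [Model.T, m1, m2, cfcHom_id hN, h, ← e1, ← e2, ContinuousLinearMap.adjoint_comp]
    rfl
  have hPP : ∀ x, P (P x) = P x := fun x =>
    congrArg (fun L : H →L[ℂ] H => L x) hP.isIdempotentElem
  refine ⟨m, ⟨(ContinuousMap.id ℂ).restrict (spectrum ℂ N), (I 0 + I 1) ∘L ((I 2 + I 3)†),
    I 0 ∘L ((I 0)†) + I 2 ∘L ((I 2)†), P, hP, ?_, by rw [e3, hPT]⟩, e3, rfl⟩
  rw [m2, ContinuousLinearMap.comp_add, ← ContinuousLinearMap.comp_assoc,
    ← ContinuousLinearMap.comp_assoc, hZ, hZ]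
  ext x
  simp [Z, W, Fin.sum_univ_four, hPP]

end Pool.Agent.P.MP_49c4d9_an.TC
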