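import Pool.Agent.P.MP_f981b0_an.TC.HEnd
import Pool.Agent.P.MP_f981b0_an.TC.JGood
import Pool.Agent.P.MP_49c4d9_an.TC.Red
import Pool.Agent.P.MP_49c4d9_an.TC.Cols

set_option autoImplicit false

noncomputable section

namespace Pool.Agent.P.MP_49c4d9_an.TC

open scoped InnerProductSpace InnerProduct
open Pool.Agent.P.MP_f981b0_an.TC

variable {H : Type*} [NormedAddCommGroup H] [InnerProductSpace ℂ H] [CompleteSpace H]

/-- Every reducing subspace of dimension at least two of a trace class perturbation of a normal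
operator contains a nontrivial closed invariant subspace. -/
theorem exists_invariant_le {N T : H →L[ℂ] H} {u v : ℕ → H} (hN : IsStarNormal N)
    (huv : Summable fun n => ‖u n‖ * ‖v n‖)
    (hT : ∀ x, HasSum (fun n => ⟪v n, x⟫_ℂ • u n) (T x - N x)) {M : Submodule ℂ H}
    (hM : IsClosed (M : Set H)) (h1 : ∀ x ∈ M, T x ∈ M) (h2 : ∀ x ∈ M, (T†) x ∈ M)
    (hr : 1 < Module.rank ℂ M) :
    ∃ L : Submodule ℂ H, IsClosed (L : Set H) ∧ L ≤ M ∧ (∀ x ∈ L, T x ∈ L) ∧ L ≠ ⊥ ∧ L ≠ M := by
  by_contra hno
  have := hM.completeSpace_coe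
  have := secondCountable_L2 (ℕ × Fin 4)
  have hPT : M.starProjection * T = T * M.starProjection := by
    ext x
    have e1 : T (x - M.starProjection x) ∈ Mᗮ := fun y hy => by
      rw [← ContinuousLinearMap.adjoint_inner_left]
      exact M.sub_starProjection_mem_orthogonal x _ (h2 y hy)
    refine Submodule.eq_starProjection_of_mem_orthogonal (h1 _ (M.starProjection_apply_mem x)) ?_
    rwa [map_sub] at e1
  obtain ⟨m, s, e1, e2⟩ := exists_sys hN huv hT (isStarProjection_starProjection (U := M)) hPT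
  have hMP : ∀ x, x ∈ M ↔ s.P x = x := fun x => by
    rw [e2, Submodule.starProjection_eq_self_iff]
  refine Sys.false_of_trans good_of_route (s := s) (fun L l1 l2 l3 => ?_) hMP hr
  by_contra hcon
  push Not at hcon
  obtain ⟨l4, x, hx, hxL⟩ := hcon
  rw [e1] at l3
  refine hno ⟨L, l1, fun y hy => (hMP y).2 (l2 y hy), l3, l4, fun e => hxL ?_⟩
  rw [e]
  exact (hMP x).2 hx

/-- A reductive orthogonal summand of a trace class perturbation of a normal operator is normal. -/
theorem normal_of_reductive_summand {K : Type*} [NormedAddCommGroup K] [InnerProductSpace ℂ K]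
    [CompleteSpace K] {T : H →L[ℂ] H} (V : H →ₗᵢ[ℂ] K) {N S : K →L[ℂ] K} {u v : ℕ → K}
    (hN : IsStarNormal N) (huv : Summable fun n => ‖u n‖ * ‖v n‖)
    (hS : ∀ x, HasSum (fun n => ⟪v n, x⟫_ℂ • u n) (S x - N x)) (h1 : ∀ x, S (V x) = V (T x))
    (h2 : ∀ x, (S†) (V x) = V ((T†) x))
    (hred : ∀ L : Submodule ℂ H, IsClosed (L : Set H) → (∀ x ∈ L, T x ∈ L) →
      ∀ x ∈ L, (T†) x ∈ L) : IsStarNormal T := by
  have key := normal_on_of_reductive (compact_commutator hN huv hS)
    (fun M a1 a2 a3 a4 => exists_invariant_le hN huv hS a1 a2 a3 a4)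
    (M₀ := V.toLinearMap.range) V.isometry.isClosedEmbedding.isClosed_range
    (by
      rintro _ ⟨x, rfl⟩
      exact ⟨T x, (h1 x).symm⟩)
    (by
      intro L hL hLV hinv y hy
      obtain ⟨x, rfl⟩ := hLV hy
      have := hred (L.comap V.toLinearMap) (hL.preimage V.continuous)
        (fun z hz => by
          show V (T z) ∈ L
          rw [← h1]
          exact hinv _ hz) x hy
      show (S†) (V x) ∈ L
      rw [h2]
      exact this)
  constructor
  rw [ContinuousLinearMap.star_eq_adjoint]
  ext x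
  apply V.injective
  have := key (V x) ⟨x, rfl⟩
  rwa [h1, h2, h2, h1] at this

end Pool.Agent.P.MP_49c4d9_an.TC
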